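import Pool.Agent.H92.GU.TFIc
import Pool.Agent.H46.GZ.MSS

/-!
# Row TFI of the board gu: cusp forms are integrable against the skewness (helper92)
-/

set_option autoImplicit false

namespace Pool.Agent.H92.GU

open MeasureTheory Pool.Agent.H34.GM Pool.Agent.H34.GZ Pool.Agent.H34.GU Pool.Agent.H46.GZ
open scoped ENNReal

/-- the statement -/
def TfiS : Prop := ∀ (m N : ℕ) [NeZero N] (T : ℕ → Finset (ZM m)) (D : Set (V m)),
  SysZ m N T D → ∀ (F : Mat m → VN m N → ℂ) (lam : ℕ → ℂ) (mu : Fin m → ℂ),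
  CuspU m N T F lam mu → ∀ x : VN m N,
    ∫⁻ z in D, Tht (mt z) * ENNReal.ofReal ‖F (mt z) x‖ ∂(hm m) < ⊤

theorem tfi (hHAR : T_HAR) (hMSR : T_MSR) (hVLM : T_VLM) (hDYM : T_DYM) (hGSU : T_GSU)
    (hOSU : T_OSU) : TfiS := by
  intro m N _ T D hS F lam mu hF x
  have hm1 := hS.one_le
  obtain ⟨χ, hχ⟩ := prof
  obtain ⟨c, C, A, hc, hC, hO⟩ := hOSU m χ hm1 hχ
  have hC0 : 0 < C := by linarith
  obtain ⟨B0, hB0⟩ := hF.bdd
  set B : ℝ := max B0 0 with hBd
  have hB : ∀ g x, g.det ≠ 0 → ‖F g x‖ ≤ B := fun g x hg => (hB0 g x hg).trans (le_max_left _ _)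
  have hBn : 0 ≤ B := le_max_right _ _
  have hZ : hm m (Zc m C) < ⊤ := (hHAR m hm1).2.2.2 C hC0
  set Z : ℝ := (hm m (Zc m C)).toReal with hZd
  have hZ0 : 0 ≤ Z := ENNReal.toReal_nonneg
  have hZe : hm m (Zc m C) = ENNReal.ofReal Z := (ENNReal.ofReal_toReal hZ.ne).symm
  set s : ℝ := 1 + ∑ j, ‖mu j‖ with hs
  have hs1 : 1 ≤ s := by
    have : 0 ≤ ∑ j, ‖mu j‖ := Finset.sum_nonneg fun j _ => norm_nonneg _
    linarith
  have hs0 : 0 < s := by linarith
  set δ : ℝ := min (1 / 2) (c / s) with hδd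
  have hδ : 0 < δ := lt_min (by norm_num) (div_pos hc hs0)
  have hδ2 : δ ≤ 1 / 2 := min_le_left _ _
  have hδc : δ * s ≤ c := by
    have h1 : δ ≤ c / s := min_le_right _ _
    calc δ * s ≤ c / s * s := mul_le_mul_of_nonneg_right h1 hs0.le
      _ = c := by field_simp
  set κ : ℝ := C * δ⁻¹ ^ A with hκd
  have hκ : 0 ≤ κ := by positivity
  have hN0 : (0 : ℝ) < N := by
    have := hS.two_le
    have h2 : 0 < N := by omega
    exact_mod_cast h2
  set M : ℝ := B + B * N + κ * N * B * Z with hMd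
  have hM : 0 ≤ M := by positivity
  have hzc := zc_meas hMSR m C
  refine core hm1 hVLM hDYM hGSU hS.dom (fun z => ENNReal.ofReal ‖F (mt z) x‖) M hM ?_ ?_
  · intro z hz
    refine ENNReal.ofReal_le_ofReal ((hB _ _ (dom_det hm1 hS.dom hz)).trans ?_)
    have h1 : 0 ≤ B * N := by positivity
    have h2 : 0 ≤ κ * N * B * Z := by positivity
    rw [hMd]
    linarith
  · intro z hz k hk
    have hdz := dom_det hm1 hS.dom hz
    have hp : (0 : ℝ) < (1 / 2) ^ k := by positivity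
    by_cases hNk : (N : ℝ) ≤ 2 ^ (k + 1)
    · have h1 : ∃ γ : ZM m, IsUnit γ ∧ ∃ (n : Mat m) (a : Fin m → ℝ) (k' : Mat m),
          Sgl (cR γ * mt z) n a k' ∧ ∃ i j : Fin m, (i : ℕ) + 1 = j ∧
            (2 : ℝ) ^ (k + 1) * a i < a j := by
        by_contra hcon
        apply hk
        refine ⟨hz, fun γ hγ n a k' hs i j hij => ?_⟩
        by_contra hlt
        exact hcon ⟨γ, hγ, n, a, k', hs, i, j, hij, not_le.1 hlt⟩
      obtain ⟨γ, hγ, n, a, k', hSg, i, j, hij, hlt⟩ := h1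
      have hai := hSg.pos i
      have haj := hSg.pos j
      have hNa : (N : ℝ) * a i ≤ a j := (mul_le_mul_of_nonneg_right hNk hai.le).trans hlt.le
      have hdb : (cR γ * mt z).det ≠ 0 := by
        rw [Matrix.det_mul]
        exact mul_ne_zero (cR_det hγ) hdz
      have h2 := hO N T F lam mu hS.two_le hF δ hδ hδ2 hδc _ n a k' hSg i j hij hNa (ac N γ x)
      rw [hF.auto γ hγ (mt z) x hdz] at h2
      have h3 : ∫⁻ v in Zc m C, ENNReal.ofReal ‖F (cR γ * mt z * (mt v)⁻¹) (ac N γ x)‖ ∂(hm m) ≤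
          ENNReal.ofReal (B * Z) := by
        calc ∫⁻ v in Zc m C, ENNReal.ofReal ‖F (cR γ * mt z * (mt v)⁻¹) (ac N γ x)‖ ∂(hm m)
            ≤ ∫⁻ _ in Zc m C, ENNReal.ofReal B ∂(hm m) := by
              refine setLIntegral_mono' hzc fun v hv => ENNReal.ofReal_le_ofReal (hB _ _ ?_)
              rw [Matrix.det_mul]
              refine mul_ne_zero hdb ?_
              rw [Matrix.det_nonsing_inv, Ring.inverse_eq_inv']
              exact inv_ne_zero (zc_det hC0 hv)
          _ = ENNReal.ofReal B * hm m (Zc m C) := by rw [setLIntegral_const]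
          _ = ENNReal.ofReal (B * Z) := by rw [hZe, ENNReal.ofReal_mul hBn]
      have hq : (N : ℝ) * a i / a j ≤ N * (1 / 2) ^ k := by
        rw [div_le_iff₀ haj]
        have h4 : (1 / 2 : ℝ) ^ k * 2 ^ (k + 1) = 2 := by
          rw [pow_succ, ← mul_assoc, ← mul_pow]
          norm_num
        have h5 : a i * 2 ≤ (1 / 2) ^ k * a j := by
          calc a i * 2 = (1 / 2) ^ k * (2 ^ (k + 1) * a i) := by
                rw [← mul_assoc, h4]; ring
            _ ≤ (1 / 2) ^ k * a j := mul_le_mul_of_nonneg_left hlt.le hp.le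
        calc (N : ℝ) * a i ≤ N * (a i * 2) := by
              apply mul_le_mul_of_nonneg_left _ hN0.le
              linarith
          _ ≤ N * ((1 / 2) ^ k * a j) := mul_le_mul_of_nonneg_left h5 hN0.le
          _ = N * (1 / 2) ^ k * a j := by ring
      calc ENNReal.ofReal ‖F (mt z) x‖ ≤ ENNReal.ofReal (κ * (N * a i / a j)) *
            ENNReal.ofReal (B * Z) := h2.trans (mul_le_mul' le_rfl h3)
        _ ≤ ENNReal.ofReal (κ * (N * (1 / 2) ^ k)) * ENNReal.ofReal (B * Z) := by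
            refine mul_le_mul' (ENNReal.ofReal_le_ofReal ?_) le_rfl
            exact mul_le_mul_of_nonneg_left hq hκ
        _ = ENNReal.ofReal (κ * N * B * Z * (1 / 2) ^ k) := by
            rw [← ENNReal.ofReal_mul (by positivity)]
            congr 1
            ring
        _ ≤ ENNReal.ofReal (M * (1 / 2) ^ k) := by
            refine ENNReal.ofReal_le_ofReal (mul_le_mul_of_nonneg_right ?_ hp.le)
            have h6 : 0 ≤ B * N := by positivity
            rw [hMd]
            linarith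
    · have h7 : (2 : ℝ) ^ (k + 1) < N := not_le.1 hNk
      refine ENNReal.ofReal_le_ofReal ((hB _ _ hdz).trans ?_)
      have h8 : 1 ≤ (N : ℝ) * (1 / 2) ^ k := by
        have h4 : (2 : ℝ) ^ (k + 1) * (1 / 2 : ℝ) ^ k = 2 := by
          rw [pow_succ, mul_comm ((2 : ℝ) ^ k) 2, mul_assoc, ← mul_pow]
          norm_num
        have h5 : (2 : ℝ) ^ (k + 1) * (1 / 2 : ℝ) ^ k ≤ N * (1 / 2) ^ k :=
          mul_le_mul_of_nonneg_right h7.le hp.le
        linarith
      have h9 : 0 ≤ B * (1 / 2) ^ k := by positivity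
      have h10 : 0 ≤ κ * N * B * Z * (1 / 2) ^ k := by positivity
      calc B = B * 1 := (mul_one B).symm
        _ ≤ B * ((N : ℝ) * (1 / 2) ^ k) := mul_le_mul_of_nonneg_left h8 hBn
        _ ≤ M * (1 / 2) ^ k := by
            rw [hMd, add_mul, add_mul]
            linarith [mul_assoc B (N : ℝ) ((1 / 2 : ℝ) ^ k)]

end Pool.Agent.H92.GU
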