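import Pool.Agent.H34.GU.Targets1
import Pool.Agent.H90.GZ.VLM

/-!
# Row TFI of the board gu, first part: the abstract summation over the gaps (helper92)
-/

set_option autoImplicit false

namespace Pool.Agent.H92.GU

open MeasureTheory Pool.Agent.H34.GM Pool.Agent.H34.GZ Pool.Agent.H34.GU
open scoped ENNReal

lemma dy_pos {m : ℕ} {D : Set (V m)} {Y : ℝ} {z : V m} (h : z ∈ DY D Y) : z ∈ D := h.1

/-- the series -/
lemma series (C : ℝ) (K : ℕ) (hC : 0 < C) :
    ∑' k : ℕ, ENNReal.ofReal (2 * (1 / 2 : ℝ) ^ k * (C * (1 + Real.log (2 ^ (k + 1))) ^ K)) < ⊤ := by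
  have hs : Summable (fun k : ℕ => 2 * (1 / 2 : ℝ) ^ k * (C * (1 + Real.log (2 ^ (k + 1))) ^ K)) := by
    have h1 : Summable (fun k : ℕ => ((k : ℝ) ^ K) * (1 / 2 : ℝ) ^ k) := by
      apply summable_pow_mul_geometric_of_norm_lt_one K
      rw [Real.norm_eq_abs, abs_of_pos (by norm_num)]
      norm_num
    have h2 : Summable (fun k : ℕ => (((k + 2 : ℕ) : ℝ) ^ K) * (1 / 2 : ℝ) ^ (k + 2)) :=
      (summable_nat_add_iff 2).2 h1
    refine Summable.of_nonneg_of_le (fun k => ?_) (fun k => ?_) (h2.mul_left (8 * C))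
    · have hl : 0 ≤ Real.log (2 ^ (k + 1)) := Real.log_nonneg (one_le_pow₀ (by norm_num))
      positivity
    · have hl : 0 ≤ Real.log (2 ^ (k + 1)) := Real.log_nonneg (one_le_pow₀ (by norm_num))
      have hl2 : 1 + Real.log (2 ^ (k + 1)) ≤ ((k + 2 : ℕ) : ℝ) := by
        rw [Real.log_pow]
        have h3 : Real.log 2 ≤ 1 := by
          have := Real.log_le_sub_one_of_pos (show (0 : ℝ) < 2 by norm_num)
          linarith
        have h4 : (((k + 1 : ℕ) : ℝ)) * Real.log 2 ≤ ((k + 1 : ℕ) : ℝ) * 1 :=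
          mul_le_mul_of_nonneg_left h3 (by positivity)
        push_cast at h4 ⊢
        linarith
      have h5 : (1 + Real.log (2 ^ (k + 1))) ^ K ≤ ((k + 2 : ℕ) : ℝ) ^ K :=
        pow_le_pow_left₀ (by linarith) hl2 K
      have h6 : (1 / 2 : ℝ) ^ (k + 2) = (1 / 2) ^ k * (1 / 4) := by
        rw [pow_add]; norm_num
      rw [h6]
      have h7 : 0 < (1 / 2 : ℝ) ^ k := by positivity
      calc 2 * (1 / 2 : ℝ) ^ k * (C * (1 + Real.log (2 ^ (k + 1))) ^ K)
          ≤ 2 * (1 / 2 : ℝ) ^ k * (C * ((k + 2 : ℕ) : ℝ) ^ K) := by gcongr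
        _ = 8 * C * (((k + 2 : ℕ) : ℝ) ^ K * ((1 / 2) ^ k * (1 / 4))) := by ring
  rw [← ENNReal.ofReal_tsum_of_nonneg (fun k => ?_) hs]
  · exact ENNReal.ofReal_lt_top
  · have hl : 0 ≤ Real.log (2 ^ (k + 1)) := Real.log_nonneg (one_le_pow₀ (by norm_num))
    positivity

/-- a function which decays with the gaps is integrable against the skewness -/
lemma core {m : ℕ} (hm1 : 1 ≤ m) (hVLM : T_VLM) (hDYM : T_DYM) (hGSU : T_GSU)
    {D : Set (V m)} (hD : DomZ m D) (f : V m → ℝ≥0∞) (M : ℝ) (hM : 0 ≤ M)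
    (h0 : ∀ z ∈ D, f z ≤ ENNReal.ofReal M)
    (h1 : ∀ z ∈ D, ∀ k : ℕ, z ∉ DY D (2 ^ (k + 1)) → f z ≤ ENNReal.ofReal (M * (1 / 2) ^ k)) :
    ∫⁻ z in D, Tht (mt z) * f z ∂(hm m) < ⊤ := by
  classical
  obtain ⟨C, K, hC, hV⟩ := hVLM m hm1
  have hV2 := (hV D hD).2
  have hT : Measurable fun z : V m => Tht (mt z) := Pool.Agent.H90.GZ.measurable_tht hGSU m
  set g : ℕ → V m → ℝ≥0∞ := fun k =>
    (DY D (2 ^ (k + 1))).indicator
      (fun z => ENNReal.ofReal (2 * M * (1 / 2) ^ k) * Tht (mt z)) with hg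
  have hgm : ∀ k, Measurable (g k) := fun k =>
    (hT.const_mul _).indicator (hDYM m D hD _)
  have hpt : ∀ z ∈ D, Tht (mt z) * f z ≤ ∑' k, g k z := by
    intro z hz
    by_cases hex : ∃ k : ℕ, z ∈ DY D (2 ^ (k + 1))
    · set k := Nat.find hex with hk
      have hkm : z ∈ DY D (2 ^ (k + 1)) := Nat.find_spec hex
      have hfk : f z ≤ ENNReal.ofReal (2 * M * (1 / 2) ^ k) := by
        rcases Nat.eq_zero_or_pos k with hk0 | hkp
        · refine (h0 z hz).trans (ENNReal.ofReal_le_ofReal ?_)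
          rw [hk0]
          simp
          linarith
        · obtain ⟨j, hj⟩ : ∃ j, k = j + 1 := ⟨k - 1, by omega⟩
          have hn : z ∉ DY D (2 ^ (j + 1)) := Nat.find_min hex (show j < Nat.find hex by omega)
          refine (h1 z hz j hn).trans (ENNReal.ofReal_le_ofReal (le_of_eq ?_))
          rw [hj, pow_succ]
          ring
      calc Tht (mt z) * f z ≤ Tht (mt z) * ENNReal.ofReal (2 * M * (1 / 2) ^ k) := by gcongr
        _ = g k z := by
          simp only [hg]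
          rw [Set.indicator_of_mem hkm, mul_comm]
        _ ≤ ∑' k, g k z := ENNReal.le_tsum k
    · have hf0 : f z = 0 := by
        push Not at hex
        have h2 : ∀ k : ℕ, f z ≤ ENNReal.ofReal (M * (1 / 2) ^ k) := fun k => h1 z hz k (hex k)
        have h3 : Filter.Tendsto (fun k : ℕ => ENNReal.ofReal (M * (1 / 2) ^ k)) Filter.atTop
            (nhds 0) := by
          rw [← ENNReal.ofReal_zero]
          apply ENNReal.tendsto_ofReal
          have := (tendsto_pow_atTop_nhds_zero_of_lt_one (show (0 : ℝ) ≤ 1 / 2 by norm_num)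
            (by norm_num)).const_mul M
          rwa [mul_zero] at this
        exact le_antisymm (ge_of_tendsto' h3 h2) zero_le
      rw [hf0, mul_zero]
      exact zero_le
  calc ∫⁻ z in D, Tht (mt z) * f z ∂(hm m) ≤ ∫⁻ z in D, ∑' k, g k z ∂(hm m) :=
        setLIntegral_mono' hD.meas hpt
    _ = ∑' k, ∫⁻ z in D, g k z ∂(hm m) := lintegral_tsum fun k => (hgm k).aemeasurable
    _ ≤ ∑' k : ℕ, ENNReal.ofReal M * ENNReal.ofReal
          (2 * (1 / 2 : ℝ) ^ k * (C * (1 + Real.log (2 ^ (k + 1))) ^ K)) := by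
        refine ENNReal.tsum_le_tsum fun k => ?_
        have hDYk := hDYM m D hD (2 ^ (k + 1))
        have hsub : DY D (2 ^ (k + 1)) ⊆ D := fun z hz => hz.1
        have hY2 : (2 : ℝ) ≤ 2 ^ (k + 1) := by
          calc (2 : ℝ) = 2 ^ 1 := by norm_num
            _ ≤ 2 ^ (k + 1) := pow_le_pow_right₀ (by norm_num) (by omega)
        simp only [hg]
        rw [setLIntegral_indicator hDYk, Set.inter_eq_left.2 hsub,
          lintegral_const_mul _ hT]
        refine (mul_le_mul' le_rfl (hV2 _ hY2)).trans (le_of_eq ?_)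
        rw [← ENNReal.ofReal_mul (by positivity), ← ENNReal.ofReal_mul hM]
        congr 1
        ring
    _ = ENNReal.ofReal M * ∑' k : ℕ, ENNReal.ofReal
          (2 * (1 / 2 : ℝ) ^ k * (C * (1 + Real.log (2 ^ (k + 1))) ^ K)) := ENNReal.tsum_mul_left
    _ < ⊤ := ENNReal.mul_lt_top ENNReal.ofReal_lt_top (series C K hC)

/-- a profile exists -/
lemma prof : ∃ χ : ℝ → ℝ, Prof χ := by
  let b : ContDiffBump (0 : ℝ) := ⟨1 / 4, 1, by norm_num, by norm_num⟩
  refine ⟨b, ?_, fun x => b.nonneg, fun x => b.le_one, fun x hx => ?_, fun x hx => ?_⟩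
  · exact b.contDiff
  · apply b.one_of_mem_closedBall
    rw [Metric.mem_closedBall, Real.dist_eq, sub_zero]
    exact hx
  · apply b.zero_of_le_dist
    rw [Real.dist_eq, sub_zero]
    exact hx

end Pool.Agent.H92.GU
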